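import Mathlib
import Pool.Agent.R556.SumDiff

/-!
# MP_ecebd1_co: `df(G) - ⌈sm(G)/2⌉` is unbounded on bipartite graphs (even on trees)
-/

set_option autoImplicit false

namespace Pool.Agent.Results.MP_ecebd1_co.TreeExcess

open Pool.Agent.R556.SumDiff

/-- For every `k` there is a finite bipartite graph with an edge and
`df(G) - ⌈sm(G)/2⌉ ≥ k`. -/
theorem result : ∀ k : ℕ, ∃ (V : Type) (_ : Fintype V) (G : SimpleGraph V),
    G.Colorable 2 ∧ (∃ u v, G.Adj u v) ∧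
    (k : ℤ) ≤ (diffIndex G : ℤ) - ⌈(sumIndex G : ℚ) / 2⌉ := by
  intro k
  set n := 8 * (k + 2) with hn
  refine ⟨TV n, inferInstance, T n, colorable n, ⟨_, _, adj_root n ⟨0, by omega⟩⟩, ?_⟩
  rw [sumIndex_T]
  have h1 : ⌈((n : ℕ) : ℚ) / 2⌉ = 4 * (k + 2) := by
    rw [hn]
    push_cast
    have : (8 * ((k : ℚ) + 2)) / 2 = ((4 * (k + 2) : ℤ) : ℚ) := by push_cast; ring
    rw [this, Int.ceil_intCast]
  rw [h1]
  have h2 := diffIndex_T n
  set m := diffIndex (T n) with hm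
  have h3 : 5 * (k + 2) ≤ m := by
    by_contra hc
    push Not at hc
    have h4 : m * (2 * m + 1) ≤ (5 * (k + 2)) * (2 * (5 * (k + 2)) - 1) := by
      apply Nat.mul_le_mul <;> omega
    have h5 : n * (n - 1) = 8 * (k + 2) * (8 * (k + 2) - 1) := by rw [hn]
    rw [h5] at h2
    have h6 := h2.trans h4
    obtain ⟨j, hj⟩ : ∃ j, j = k + 2 := ⟨_, rfl⟩
    rw [← hj] at h6
    have hj2 : 2 ≤ j := by omega
    obtain ⟨a, ha⟩ : ∃ a, 8 * j - 1 = a := ⟨_, rfl⟩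
    obtain ⟨b, hb⟩ : ∃ b, 2 * (5 * j) - 1 = b := ⟨_, rfl⟩
    have ha' : a + 1 = 8 * j := by omega
    have hb' : b + 1 = 10 * j := by omega
    rw [ha, hb] at h6
    nlinarith
  omega

end Pool.Agent.Results.MP_ecebd1_co.TreeExcess
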